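import Pool.Agent.V8H46.Sym.Final

/-!
# Refutations of the pigeonhole principle with MOD_p contain formulas with many renamings

The pigeonhole principle for bijections: the pigeons are `A ⊕ B`, the holes are `J`.
`Formulas p A B J G`: a set `G` of formulas with MOD_p gates and disjunctions of any fan-in and any
depth, closed under subformulas and under the permutations of the pigeons of `A`.
`F.Derivable k`: derivable within `G` from the clauses, by all inferences that inspect the outermost
connectives of at most `k` formulas (of any fan-in), and by two rules with any number of premises.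
-/

set_option autoImplicit false

namespace Pool.Agent.Results.MP_7a4ff1_lc.ManyRenamings

open Pool.Agent.V8H46.Sym

/-- Let the number `t` of pigeons minus the number of holes be a multiple of `q = p ^ l`, and
`(k + 7) q² + t ≤ |A|`. If the empty disjunction is derivable in `G`, then some formula in `G` has
at least `2 ^ q / (2 q)` images under the permutations of `A`. (This is an exponential lower bound:
for all `N ≥ k + 8` there is a power `q = p ^ l` with `(k + 8) q² ≤ N < (k + 8) p² q²`.) -/
theorem result (p : ℕ) [Fact p.Prime] (k : ℕ) :
    (∀ (l t : ℕ) (A B J G : Type) [Fintype A] [DecidableEq A] [Fintype B] [Fintype J]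
      [DecidableEq G] [Fintype G] [MulAction (Equiv.Perm A) G] (F : Formulas p A B J G) (L : G),
      Fintype.card A + Fintype.card B = Fintype.card J + t → p ^ l ∣ t →
      (k + 7) * (p ^ l) ^ 2 + t ≤ Fintype.card A →
      F.Derivable k L → F.gate L = Gate.or ∅ →
      ∃ g : G, 2 ^ (p ^ l) ≤ 2 * p ^ l * (MulAction.orbit (Equiv.Perm A) g).ncard) ∧
    (∀ N : ℕ, k + 8 ≤ N → ∃ l : ℕ, (k + 8) * (p ^ l) ^ 2 ≤ N ∧
      N < (k + 8) * p ^ 2 * (p ^ l) ^ 2) :=
  ⟨fun l t _ _ _ _ _ _ _ _ _ _ _ F L hc ht hA hL hL0 => lower_bound k l t F hc ht hA L hL hL0,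
    fun N hN => exists_power p k N Fact.out hN⟩

end Pool.Agent.Results.MP_7a4ff1_lc.ManyRenamings
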