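import Pool.Agent.V8H39.Sem.Closure

/-!
Exponential lower bounds for semantic refutations whose lines, apart from a few arbitrary ones,
are sums over a field of conjunctions of few disjunctive normal forms with short terms.
-/

set_option linter.unusedSectionVars false

namespace Pool.Agent.Results.MP_7a4ff1_lc.SemanticModSums

open Finset Pool.Agent.Helper600R2 Pool.Agent.V8H39.Sem

lemma family (q : ℕ) (hq : 2 ≤ q) (N : ℕ) :
    ∃ F : Finset (Finset (Fin N × Bool)),
      (F.card ≤ N ^ (4 * q) ∧ ∀ Cl ∈ F, Cl.card ≤ 4 * q * Nat.log 2 N) ∧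
      (2 ^ (120 * q + 4) ≤ N →
        (∀ x, ∃ Cl ∈ F, ¬ ClauseTrue Cl x) ∧
        ∀ (K : Type) [Field K], (q : K) ≠ 0 →
          ∀ (κ k T H L : ℕ) (f : Fin L → (Fin N → Bool) → Bool) (Fr : Finset (Fin L))
            (𝓓 : Finset (Finset (Finset (Fin N × Bool)))),
            IsSemRef F k f → Fr.card ≤ T → (∀ D ∈ 𝓓, ∀ τ ∈ D, τ.card ≤ κ) →
            (∀ i ∉ Fr, Low K 𝓓 H (f i)) →
            N ≤ 1920 * q ^ 2 * Nat.log 2 N * (k * (T + 1) + 1) *
              (8 ^ (κ ^ 2) * H * (Nat.log 2 𝓓.card + 1) + 1)) := by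
  classical
  by_cases hN : 2 ^ (120 * q + 4) ≤ N
  swap
  · exact ⟨∅, ⟨by simp, by simp⟩, fun h => absurd h hN⟩
  have : NeZero q := ⟨by omega⟩
  set r : ℕ := q - 1 with hr
  have hrq : r + 1 = q := by omega
  have hr1 : 1 ≤ r := by omega
  set m : ℕ := Nat.log 2 N with hm
  have hm1 : 120 * q + 4 ≤ m := Nat.le_log_of_pow_le (by norm_num) hN
  have hm0 : 0 < m := by omega
  have hNpos : N ≠ 0 := by have := Nat.one_le_two_pow (n := 120 * q + 4); omega
  have hmN : 2 ^ m ≤ N := Nat.pow_log_le_self 2 hNpos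
  have hNm : N < 2 ^ (m + 1) := Nat.lt_pow_succ_log_self (by norm_num) N
  set n : ℕ := N / (2 * r * m) with hn
  have hrm : 0 < 2 * r * m := Nat.mul_pos (Nat.mul_pos two_pos hr1) hm0
  have hmm : 120 * r * m ≤ N := by
    have h1 : m * m ≤ 2 ^ m := by
      have h2 : ∀ j : ℕ, 4 ≤ j → j * j ≤ 2 ^ j := by
        intro j hj
        induction j, hj using Nat.le_induction with
        | base => norm_num
        | succ j hj ih =>
          rw [pow_succ]
          nlinarith
      exact h2 m (by omega)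
    calc 120 * r * m ≤ m * m := Nat.mul_le_mul_right _ (by omega)
      _ ≤ 2 ^ m := h1
      _ ≤ N := hmN
  have hn60 : 60 ≤ n := by
    rw [hn, Nat.le_div_iff_mul_le hrm]
    calc 60 * (2 * r * m) = 120 * r * m := by ring
      _ ≤ N := hmm
  have hnN : n * (2 * r * m) ≤ N := Nat.div_mul_le_self N _
  obtain ⟨π, hπ⟩ := exists_expander (n := n) (by omega)
  -- the embedding
  have hcardV : Fintype.card ((Fin n × Bool) × Fin r × Fin m) ≤ N := by
    rw [Fintype.card_prod, Fintype.card_prod, Fintype.card_prod, Fintype.card_fin,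
      Fintype.card_bool, Fintype.card_fin, Fintype.card_fin]
    calc n * 2 * (r * m) = n * (2 * r * m) := by ring
      _ ≤ N := hnN
  have hne : Nonempty ((Fin n × Bool) × Fin r × Fin m) :=
    ⟨((⟨0, by omega⟩, true), ⟨0, by omega⟩, ⟨0, by omega⟩)⟩
  let emb : (Fin n × Bool) × Fin r × Fin m → Fin N := fun u =>
    Fin.castLE hcardV (Fintype.equivFin _ u)
  have hinj : Function.Injective emb := by
    intro u u' h
    have h1 := Fin.castLE_injective hcardV h
    exact (Fintype.equivFin _).injective h1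
  let ι : Fin N → (Fin n × Bool) × Fin r × Fin m := Function.invFun emb
  have hι : ∀ u, ι (emb u) = u := Function.leftInverse_invFun hinj
  let b : Fin n → ZMod q := Pi.single ⟨0, by omega⟩ 1
  have hb : ∑ v, b v ≠ 0 := by
    have : ∑ v, b v = 1 := by simp [b]
    rw [this]
    have : Fact (1 < q) := ⟨by omega⟩
    exact one_ne_zero
  refine ⟨cnf π b emb, ⟨?_, ?_⟩, fun _ => ⟨cnf_unsat π b hb emb, ?_⟩⟩
  · refine (cnf_card π b emb).trans ?_
    have h1 : 2 ^ (4 * (r * m)) ≤ N ^ (4 * r) := by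
      calc 2 ^ (4 * (r * m)) = (2 ^ m) ^ (4 * r) := by rw [← pow_mul]; congr 1; ring
        _ ≤ N ^ (4 * r) := Nat.pow_le_pow_left hmN _
    have h2 : n ≤ N := Nat.div_le_self _ _
    calc n * 2 ^ (4 * (r * m)) ≤ N * N ^ (4 * r) := Nat.mul_le_mul h2 h1
      _ = N ^ (4 * r + 1) := by rw [pow_succ]; ring
      _ ≤ N ^ (4 * q) := Nat.pow_le_pow_right (by omega) (by omega)
  · intro Cl hCl
    refine (cnf_width π b emb Cl hCl).trans ?_
    calc 4 * (r * m) ≤ 4 * (q * m) := Nat.mul_le_mul_left _ (Nat.mul_le_mul_right _ (by omega))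
      _ = 4 * q * m := by ring
  intro K _ hqK κ k T H L f Fr 𝓓 href hFr h𝓓 hlow
  -- reduction to short terms
  have main : ∀ (κ H : ℕ) (𝓓 : Finset (Finset (Finset (Fin N × Bool)))), 2 * κ ≤ m →
      (∀ D ∈ 𝓓, ∀ τ ∈ D, τ.card ≤ κ) → (∀ i ∉ Fr, Low K 𝓓 H (f i)) →
      N ≤ 1920 * q ^ 2 * m * (k * (T + 1) + 1) *
        (8 ^ (κ ^ 2) * H * (Nat.log 2 𝓓.card + 1) + 1) := by
    intro κ H 𝓓 hκ h𝓓 hlow
    set w : ℕ := Nat.log 2 𝓓.card + 1 with hw
    have hcard : 𝓓.card < 2 ^ w := Nat.lt_pow_succ_log_self (by norm_num) _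
    have hqK' : (q : AlgebraicClosure K) ≠ 0 := by
      intro h
      apply hqK
      have h1 : algebraMap K (AlgebraicClosure K) (q : K) = 0 := by
        rw [map_natCast]; exact h
      exact (map_eq_zero _).mp h1
    have : NeZero (q : K) := ⟨hqK⟩
    obtain ⟨ζ, hζ⟩ := HasEnoughRootsOfUnity.exists_primitiveRoot (AlgebraicClosure K) q
    have hprim := AddChar.zmodChar_primitive_of_primitive_root q hζ
    by_contra hcon
    push Not at hcon
    refine core π _ hprim hqK' hrq (by omega) hπ b emb ι hι κ w k T H hκ (by omega) ?_ f href Fr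
      hFr 𝓓 h𝓓 hcard (fun i hi => low_map (hlow i hi))
    by_contra hlt
    push Not at hlt
    set Z : ℕ := 2 * ((k * (T + 1) + 1) * (H * (aa κ * w) + 4 * r) + 4) with hZ
    have h1 : n + 1 ≤ 60 * Z := by omega
    have h2 : N < (n + 1) * (2 * r * m) := by
      have := Nat.lt_div_mul_add hrm (a := N)
      rw [← hn] at this
      calc N < n * (2 * r * m) + 2 * r * m := this
        _ = (n + 1) * (2 * r * m) := by ring
    set K' : ℕ := k * (T + 1) + 1 with hK'
    have hK'1 : 1 ≤ K' := by omega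
    have hZle : Z ≤ 16 * r * K' * (8 ^ (κ ^ 2) * H * w + 1) := by
      have h3 : H * (aa κ * w) ≤ 8 ^ (κ ^ 2) * H * w := by
        calc H * (aa κ * w) = aa κ * (H * w) := by ring
          _ ≤ 8 ^ (κ ^ 2) * (H * w) := Nat.mul_le_mul_right _ (aa_le κ)
          _ = 8 ^ (κ ^ 2) * H * w := by ring
      set A : ℕ := 8 ^ (κ ^ 2) * H * w with hA
      calc Z = 2 * (K' * (H * (aa κ * w) + 4 * r) + 4) := rfl
        _ ≤ 2 * (K' * (A + 4 * r) + K' * 4) := by
            apply Nat.mul_le_mul_left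
            apply Nat.add_le_add
            · exact Nat.mul_le_mul_left _ (by omega)
            · exact Nat.le_mul_of_pos_left 4 hK'1
        _ = 2 * K' * (A + 4 * r + 4) := by ring
        _ ≤ 2 * K' * (8 * r * (A + 1)) := by
            apply Nat.mul_le_mul_left
            have : A ≤ 8 * r * A := Nat.le_mul_of_pos_left A (by omega)
            calc A + 4 * r + 4 ≤ 8 * r * A + 8 * r := by omega
              _ = 8 * r * (A + 1) := by ring
        _ = 16 * r * K' * (A + 1) := by ring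
    have h5 : N < 1920 * q ^ 2 * m * K' * (8 ^ (κ ^ 2) * H * w + 1) := by
      calc N < (n + 1) * (2 * r * m) := h2
        _ ≤ (60 * (16 * r * K' * (8 ^ (κ ^ 2) * H * w + 1))) * (2 * r * m) :=
            Nat.mul_le_mul_right _ (h1.trans (Nat.mul_le_mul_left _ hZle))
        _ = 1920 * r ^ 2 * m * K' * (8 ^ (κ ^ 2) * H * w + 1) := by ring
        _ ≤ 1920 * q ^ 2 * m * K' * (8 ^ (κ ^ 2) * H * w + 1) := by
            apply Nat.mul_le_mul_right
            apply Nat.mul_le_mul_right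
            apply Nat.mul_le_mul_right
            apply Nat.mul_le_mul_left
            exact Nat.pow_le_pow_left (by omega) 2
    omega
  by_cases hκ : 2 * κ ≤ m
  · exact main κ H 𝓓 hκ h𝓓 hlow
  · rcases Nat.eq_zero_or_pos H with h0 | h0
    · subst h0
      have h1 := main 0 0 ∅ (by omega) (by simp) (fun i hi => low_zero (hlow i hi))
      simpa using h1
    · have h1 : m + 1 ≤ 3 * κ ^ 2 := by
        have h2 : m + 1 ≤ 2 * κ := by omega
        nlinarith
      have h3 : N ≤ 8 ^ (κ ^ 2) := by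
        calc N ≤ 2 ^ (m + 1) := hNm.le
          _ ≤ 2 ^ (3 * κ ^ 2) := Nat.pow_le_pow_right (by norm_num) h1
          _ = 8 ^ (κ ^ 2) := by rw [pow_mul]; norm_num
      have h4 : 1 ≤ 1920 * q ^ 2 * m * (k * (T + 1) + 1) := by
        exact Nat.mul_pos (Nat.mul_pos (Nat.mul_pos (by norm_num) (pow_pos (by omega) 2)) hm0)
          (Nat.succ_pos _)
      have h5 : 8 ^ (κ ^ 2) ≤ 8 ^ (κ ^ 2) * H * (Nat.log 2 𝓓.card + 1) + 1 := by
        have h6 : 1 ≤ H * (Nat.log 2 𝓓.card + 1) := Nat.mul_pos h0 (Nat.succ_pos _)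
        calc 8 ^ (κ ^ 2) ≤ 8 ^ (κ ^ 2) * (H * (Nat.log 2 𝓓.card + 1)) :=
              Nat.le_mul_of_pos_right _ h6
          _ = 8 ^ (κ ^ 2) * H * (Nat.log 2 𝓓.card + 1) := by ring
          _ ≤ _ := Nat.le_succ _
      calc N ≤ 8 ^ (κ ^ 2) := h3
        _ ≤ 1 * (8 ^ (κ ^ 2) * H * (Nat.log 2 𝓓.card + 1) + 1) := by rw [one_mul]; exact h5
        _ ≤ _ := Nat.mul_le_mul_right _ h4

open Classical in
/-- Part 1 (closure properties of the class of lines, over the field with `p` elements): members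
of `𝓓` are in the class with parameter `1`; the class is closed under negation; the parameters
add for disjunctions of two members; any function of a weighted sum modulo `p` of any number of
members with parameter `H` has parameter `(p - 1) * H`.

Part 2 (lower bound): for every `q ≥ 2` there are sets `F N` of clauses in `N` variables, of
polynomial size, such that for all large `N` and all fields `K` in which `q` is not zero:
`F N` is unsatisfiable, and for every semantic refutation of `F N` with inferences of arity `k`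
in which all members but `T` arbitrary ones are in the class with parameter `H` over `K`, with
respect to a family of disjunctive normal forms with terms of at most `κ` literals, the
parameters satisfy the displayed inequality. -/
theorem result :
    (∀ (p : ℕ) [Fact p.Prime] (N : ℕ) (𝓓 : Finset (Finset (Finset (Fin N × Bool)))),
      (∀ D ∈ 𝓓, Low (ZMod p) 𝓓 1 (fun x => decide (dval D x))) ∧
      (∀ (H : ℕ) (f : (Fin N → Bool) → Bool), Low (ZMod p) 𝓓 H f →
        Low (ZMod p) 𝓓 H (fun x => !f x)) ∧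
      (∀ (H H' : ℕ) (f g : (Fin N → Bool) → Bool), Low (ZMod p) 𝓓 H f → Low (ZMod p) 𝓓 H' g →
        Low (ZMod p) 𝓓 (H + H') (fun x => f x || g x)) ∧
      (∀ (H t : ℕ) (c : Fin t → ZMod p) (f : Fin t → (Fin N → Bool) → Bool)
        (Φ : ZMod p → Bool), (∀ j, Low (ZMod p) 𝓓 H (f j)) →
        Low (ZMod p) 𝓓 ((p - 1) * H) (fun x => Φ (∑ j, if f j x = true then c j else 0)))) ∧
    (∀ q : ℕ, 2 ≤ q → ∃ F : ∀ N : ℕ, Finset (Finset (Fin N × Bool)),
      (∀ N, (F N).card ≤ N ^ (4 * q) ∧ ∀ Cl ∈ F N, Cl.card ≤ 4 * q * Nat.log 2 N) ∧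
      ∀ N : ℕ, 2 ^ (120 * q + 4) ≤ N →
        (∀ x, ∃ Cl ∈ F N, ¬ ClauseTrue Cl x) ∧
        ∀ (K : Type) [Field K], (q : K) ≠ 0 →
          ∀ (κ k T H L : ℕ) (f : Fin L → (Fin N → Bool) → Bool) (Fr : Finset (Fin L))
            (𝓓 : Finset (Finset (Finset (Fin N × Bool)))),
            IsSemRef (F N) k f → Fr.card ≤ T → (∀ D ∈ 𝓓, ∀ τ ∈ D, τ.card ≤ κ) →
            (∀ i ∉ Fr, Low K 𝓓 H (f i)) →
            N ≤ 1920 * q ^ 2 * Nat.log 2 N * (k * (T + 1) + 1) *
              (8 ^ (κ ^ 2) * H * (Nat.log 2 𝓓.card + 1) + 1)) := by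
  refine ⟨?_, ?_⟩
  · intro p _ N 𝓓
    exact ⟨fun D hD => low_dnf hD, fun H f hf => low_neg hf, fun H H' f g hf hg => low_or hf hg,
      fun H t c f Φ hf => low_mod c f hf Φ⟩
  · intro q hq
    choose F hF1 hF2 using family q hq
    exact ⟨F, hF1, fun N hN => hF2 N hN⟩

end Pool.Agent.Results.MP_7a4ff1_lc.SemanticModSums
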