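import Pool.Agent.V8H17.AP.Final
import Pool.Agent.V8H17.AP.Tree

/-!
Exponential lower bounds for constant-depth Frege proofs with `MOD p` connectives, for all
primes `p` and one sequence of CNF formulas of polynomial size, when the `MOD p` subformulas
have small rank.

The formula `F n` has `n` variables. Its clauses are the unions `C ∪ D` of a clause `C` of the
perfect matching principle on an odd number of points and a clause `D` of the principle that the
points are partitioned into triples, for a number of points not divisible by `3`.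
-/

set_option linter.unusedSectionVars false

namespace Pool.Agent.Results.MP_7a4ff1_lc.SmallModRank

open Finset Filter Pool.Agent.V8H17.AP

/-- The largest `N` with `N ^ q ≤ m`. -/
def N0 (q m : ℕ) : ℕ := Nat.findGreatest (fun N => N ^ q ≤ m) m

/-- The number of points: `N0 q m`, or `N0 q m - 1` if `q` divides `N0 q m`. -/
def NN (q m : ℕ) : ℕ := if q ∣ N0 q m then N0 q m - 1 else N0 q m

/-- An enumeration of the `q`-element subsets of `Fin N` by the first natural numbers. -/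
noncomputable def bl (q N : ℕ) (a : ℕ) : Finset (Fin N) :=
  if h : a < Fintype.card {B : Finset (Fin N) // B.card = q} then
    ((Fintype.equivFin {B : Finset (Fin N) // B.card = q}).symm ⟨a, h⟩).1
  else ∅

/-- The clauses of the principle that `Fin N` is not partitioned by the sets `blk a` for which
the variable `a` is true: every point is covered, and two different intersecting sets are not
both chosen. -/
def cnt {n N : ℕ} (blk : Fin n → Finset (Fin N)) : Finset (Finset (Fin n × Bool)) :=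
  (univ.image (fun v : Fin N => (univ.filter (fun a => v ∈ blk a)).image (fun a => (a, true)))) ∪
  ((univ.filter (fun ab : Fin n × Fin n => blk ab.1 ≠ blk ab.2 ∧
      ¬ Disjoint (blk ab.1) (blk ab.2))).image (fun ab => {(ab.1, false), (ab.2, false)}))

/-- The pairs of points, encoded by the first half of the variables. -/
noncomputable def blk2 (n : ℕ) (a : Fin n) : Finset (Fin (NN 2 (n / 2))) :=
  if a.val < n / 2 then bl 2 _ a.val else ∅

/-- The triples of points, encoded by the second half of the variables. -/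
noncomputable def blk3 (n : ℕ) (a : Fin n) : Finset (Fin (NN 3 (n / 2))) :=
  if a.val < n / 2 then ∅ else bl 3 _ (a.val - n / 2)

/-- The CNF formula, as a set of clauses; a clause is a set of literals, a literal is a variable
with a sign. -/
noncomputable def F (n : ℕ) : Finset (Finset (Fin n × Bool)) :=
  image₂ (fun C D => C ∪ D) (cnt (blk2 n)) (cnt (blk3 n))

lemma N0_spec {q m : ℕ} (hq : 1 ≤ q) : N0 q m ^ q ≤ m ∧ m < (N0 q m + 1) ^ q := by
  have h0 : (0 : ℕ) ^ q ≤ m := by rw [zero_pow (by omega)]; exact Nat.zero_le _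
  refine ⟨Nat.findGreatest_spec (P := fun N => N ^ q ≤ m) (Nat.zero_le m) h0, ?_⟩
  by_cases h : N0 q m + 1 ≤ m
  · have h1 : ¬ (N0 q m + 1) ^ q ≤ m :=
      Nat.findGreatest_is_greatest (P := fun N => N ^ q ≤ m) (n := m)
        (Nat.lt_succ_self (N0 q m)) h
    omega
  · have h1 : N0 q m + 1 ≤ (N0 q m + 1) ^ q := Nat.le_self_pow (by omega) _
    omega

lemma NN_spec {q m : ℕ} (hq : 1 ≤ q) : NN q m ^ q ≤ m ∧ m < (NN q m + 2) ^ q := by
  obtain ⟨h1, h2⟩ := N0_spec (m := m) hq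
  have h3 : NN q m ≤ N0 q m ∧ N0 q m + 1 ≤ NN q m + 2 := by
    unfold NN
    split_ifs <;> omega
  exact ⟨(Nat.pow_le_pow_left h3.1 q).trans h1, h2.trans_le (Nat.pow_le_pow_left h3.2 q)⟩

lemma NN_not_dvd {q m : ℕ} (hq : 2 ≤ q) (hm : 1 ≤ m) : ¬ q ∣ NN q m := by
  have h1 : 1 ≤ N0 q m := by
    by_contra h
    have h0 : N0 q m = 0 := by omega
    have h2 := (N0_spec (q := q) (m := m) (by omega)).2
    rw [h0, zero_add, one_pow] at h2
    omega
  unfold NN
  split_ifs with h
  · intro h'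
    have h2 : q ∣ 1 := by
      have := Nat.dvd_sub h h'
      have e : N0 q m - (N0 q m - 1) = 1 := by omega
      rwa [e] at this
    have := Nat.le_of_dvd one_pos h2
    omega
  · exact h

lemma card_blocks (q N : ℕ) :
    Fintype.card {B : Finset (Fin N) // B.card = q} ≤ N ^ q := by
  have h1 : Fintype.card {B : Finset (Fin N) // B.card = q} = N.choose q := by
    rw [Fintype.card_subtype]
    have : (univ.filter (fun B : Finset (Fin N) => B.card = q)) =
        powersetCard q (univ : Finset (Fin N)) := by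
      ext B
      simp [mem_powersetCard]
    rw [this, card_powersetCard, card_univ, Fintype.card_fin]
  rw [h1]
  exact Nat.choose_le_pow _ _

lemma bl_surj {q N : ℕ} (B : Finset (Fin N)) (hB : B.card = q) :
    ∃ a < N ^ q, bl q N a = B := by
  refine ⟨(Fintype.equivFin {B : Finset (Fin N) // B.card = q} ⟨B, hB⟩).val,
    (Fin.is_lt _).trans_le (card_blocks q N), ?_⟩
  unfold bl
  rw [dif_pos (Fin.is_lt _)]
  simp

lemma bl_card (q N a : ℕ) : bl q N a = ∅ ∨ (bl q N a).card = q := by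
  unfold bl
  split_ifs with h
  · exact Or.inr ((Fintype.equivFin {B : Finset (Fin N) // B.card = q}).symm ⟨a, h⟩).2
  · exact Or.inl rfl

lemma blk2_surj (n : ℕ) (B : Finset (Fin (NN 2 (n / 2)))) (hB : B.card = 2) :
    ∃ a, blk2 n a = B := by
  obtain ⟨a, ha, hab⟩ := bl_surj B hB
  have h1 := (NN_spec (q := 2) (m := n / 2) (by norm_num)).1
  have h2 : a < n / 2 := ha.trans_le h1
  refine ⟨⟨a, by omega⟩, ?_⟩
  unfold blk2
  rw [if_pos h2]
  exact hab

lemma blk3_surj (n : ℕ) (B : Finset (Fin (NN 3 (n / 2)))) (hB : B.card = 3) :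
    ∃ a, blk3 n a = B := by
  obtain ⟨a, ha, hab⟩ := bl_surj B hB
  have h1 := (NN_spec (q := 3) (m := n / 2) (by norm_num)).1
  have h2 : a < n / 2 := ha.trans_le h1
  refine ⟨⟨n / 2 + a, by omega⟩, ?_⟩
  unfold blk3
  rw [if_neg (by simp)]
  simp only [Nat.add_sub_cancel_left]
  exact hab

lemma blk2_card (n : ℕ) (a : Fin n) : blk2 n a = ∅ ∨ (blk2 n a).card = 2 := by
  unfold blk2
  split_ifs
  · exact bl_card _ _ _
  · exact Or.inl rfl

lemma blk3_card (n : ℕ) (a : Fin n) : blk3 n a = ∅ ∨ (blk3 n a).card = 3 := by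
  unfold blk3
  split_ifs
  · exact Or.inl rfl
  · exact bl_card _ _ _

lemma cnt_isCount {n N q : ℕ} {blk : Fin n → Finset (Fin N)}
    (hblk : ∀ B : Finset (Fin N), B.card = q → ∃ a, blk a = B)
    (G : Set (Finset (Fin n × Bool))) (hG : ∀ C ∈ G, ∃ D ∈ cnt blk, D ⊆ C) :
    IsCount q blk G := by
  intro C hC
  obtain ⟨D, hD, hDC⟩ := hG C hC
  unfold cnt at hD
  rw [mem_union, mem_image, mem_image] at hD
  rcases hD with ⟨v, _, rfl⟩ | ⟨⟨a, a'⟩, haa, rfl⟩
  · left
    refine ⟨v, fun B hB hvB => ?_⟩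
    obtain ⟨a, ha⟩ := hblk B hB
    refine ⟨a, ha, hDC ?_⟩
    rw [mem_image]
    exact ⟨a, by rw [mem_filter]; exact ⟨mem_univ _, by rw [ha]; exact hvB⟩, rfl⟩
  · right
    rw [mem_filter] at haa
    exact ⟨a, a', haa.2.1, haa.2.2, hDC (by simp), hDC (by simp)⟩

lemma cnt_unsat {n N q : ℕ} {blk : Fin n → Finset (Fin N)}
    (hblk : ∀ a, blk a = ∅ ∨ (blk a).card = q) (hN : ¬ q ∣ N) (x : Fin n → Bool) :
    ∃ C ∈ cnt blk, ∀ l ∈ C, x l.1 ≠ l.2 := by
  classical
  by_contra hcon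
  push Not at hcon
  apply hN
  set S : Finset (Finset (Fin N)) :=
    (univ.filter (fun a : Fin n => x a = true ∧ blk a ≠ ∅)).image blk with hS
  have hcard : ∀ B ∈ S, B.card = q := by
    intro B hB
    rw [hS, mem_image] at hB
    obtain ⟨a, ha, rfl⟩ := hB
    rw [mem_filter] at ha
    rcases hblk a with h | h
    · exact absurd h ha.2.2
    · exact h
  have hdis : ∀ B ∈ S, ∀ B' ∈ S, B ≠ B' → Disjoint B B' := by
    intro B hB B' hB' hne
    rw [hS, mem_image] at hB hB'
    obtain ⟨a, ha, rfl⟩ := hB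
    obtain ⟨a', ha', rfl⟩ := hB'
    rw [mem_filter] at ha ha'
    by_contra hd
    obtain ⟨l, hl, hxl⟩ := hcon {(a, false), (a', false)} (by
      unfold cnt
      rw [mem_union, mem_image, mem_image]
      right
      exact ⟨(a, a'), by rw [mem_filter]; exact ⟨mem_univ _, hne, hd⟩, rfl⟩)
    rw [mem_insert, mem_singleton] at hl
    rcases hl with rfl | rfl
    · rw [ha.2.1] at hxl; exact absurd hxl (by simp)
    · rw [ha'.2.1] at hxl; exact absurd hxl (by simp)
  have hcov : S.biUnion id = univ := by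
    rw [eq_univ_iff_forall]
    intro v
    obtain ⟨l, hl, hxl⟩ := hcon ((univ.filter (fun a => v ∈ blk a)).image
      (fun a => (a, true))) (by
        unfold cnt
        rw [mem_union, mem_image]
        exact Or.inl ⟨v, mem_univ _, rfl⟩)
    rw [mem_image] at hl
    obtain ⟨a, ha, rfl⟩ := hl
    rw [mem_filter] at ha
    rw [mem_biUnion]
    refine ⟨blk a, ?_, ha.2⟩
    rw [hS, mem_image]
    refine ⟨a, ?_, rfl⟩
    rw [mem_filter]
    exact ⟨mem_univ _, hxl, Finset.ne_empty_of_mem ha.2⟩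
  have h1 : (S.biUnion id).card = ∑ B ∈ S, B.card := by
    rw [card_biUnion]
    · rfl
    · intro B hB B' hB' hne
      exact hdis B hB B' hB' hne
  rw [hcov, card_univ, Fintype.card_fin, Finset.sum_congr rfl hcard, Finset.sum_const,
    smul_eq_mul] at h1
  exact ⟨S.card, h1.trans (Nat.mul_comm _ _)⟩

lemma cnt_card {n N : ℕ} (hN : N ≤ n) (blk : Fin n → Finset (Fin N)) :
    (cnt blk).card ≤ n + n * n := by
  classical
  unfold cnt
  refine (card_union_le _ _).trans (Nat.add_le_add ?_ ?_)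
  · refine card_image_le.trans ?_
    rw [card_univ, Fintype.card_fin]
    exact hN
  · refine card_image_le.trans ((card_filter_le _ _).trans ?_)
    rw [card_univ, Fintype.card_prod, Fintype.card_fin]

lemma NN_le {q n : ℕ} (hq : 1 ≤ q) : NN q (n / 2) ≤ n := by
  have h1 := (NN_spec (q := q) (m := n / 2) hq).1
  have h2 : NN q (n / 2) ≤ NN q (n / 2) ^ q := Nat.le_self_pow (by omega) _
  omega

lemma F_card (n : ℕ) : (F n).card ≤ 4 * n ^ 4 := by
  classical
  unfold F
  refine (card_image₂_le _ _ _).trans ?_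
  refine (Nat.mul_le_mul (cnt_card (NN_le (by norm_num)) _)
    (cnt_card (NN_le (by norm_num)) _)).trans ?_
  rcases Nat.eq_zero_or_pos n with rfl | hn
  · simp
  · have h1 : n ≤ n * n := Nat.le_mul_of_pos_left n hn
    calc (n + n * n) * (n + n * n) ≤ (n * n + n * n) * (n * n + n * n) :=
          Nat.mul_le_mul (by omega) (by omega)
      _ = 4 * n ^ 4 := by ring

lemma F_unsat (n : ℕ) (hn : 2 ≤ n) (x : Fin n → Bool) : ∃ C ∈ F n, ∀ l ∈ C, x l.1 ≠ l.2 := by
  classical
  have hm : 1 ≤ n / 2 := by omega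
  obtain ⟨C, hC, hC'⟩ := cnt_unsat (blk2_card n) (NN_not_dvd (by norm_num) hm) x
  obtain ⟨D, hD, hD'⟩ := cnt_unsat (blk3_card n) (NN_not_dvd (by norm_num) hm) x
  refine ⟨C ∪ D, ?_, ?_⟩
  · unfold F
    rw [mem_image₂]
    exact ⟨C, hC, D, hD, rfl⟩
  · intro l hl
    rcases mem_union.mp hl with h | h
    · exact hC' l h
    · exact hD' l h

/-- There is one sequence of CNF formulas `F n` with `n` variables and at most `4 n ^ 4` clauses,
unsatisfiable for `n ≥ 2`, such that for every prime `p` and every `d` there is `ε > 0` such that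
for all large `n` and all `c ≤ n ^ ε`: every refutation `Γ` of `F n` by `c`-local inferences
between cedents of formulas of depth at most `d` over negation, unbounded disjunction, unbounded
`MOD p` connectives and arbitrary connectives with at most `n ^ ε` arguments, in which the linear
forms modulo `p` of the maximal `MOD p` subformulas of every subformula span a space of dimension
at most `n ^ ε`, and which has rank at most `n ^ ε`, or which is tree-like in the cedents with at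
least two formulas and has at most `2 ^ (n ^ ε)` such cedents, contains at least `2 ^ (n ^ ε)`
distinct subformulas. -/
theorem result :
    ∃ F : ∀ n : ℕ, Finset (Finset (Fin n × Bool)),
      (∀ n : ℕ, 2 ≤ n → ∀ x : Fin n → Bool, ∃ C ∈ F n, ∀ l ∈ C, x l.1 ≠ l.2) ∧
      (∀ n : ℕ, (F n).card ≤ 4 * n ^ 4) ∧
      ∀ p : ℕ, p.Prime → ∀ d : ℕ, ∃ ε : ℝ, 0 < ε ∧ ∃ n₀ : ℕ, ∀ n : ℕ, n₀ ≤ n →
        ∀ c : ℕ, (c : ℝ) ≤ (n : ℝ) ^ ε → ∀ (T : ℕ) (Γ : Fin T → Finset (Fm p (Fin n))),
          ((∃ B : ℕ, (B : ℝ) ≤ (n : ℝ) ^ ε ∧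
              IsRefutation (F n : Set (Finset (Fin n × Bool))) c B Γ) ∨
            (IsTreeRefutation (F n : Set (Finset (Fin n × Bool))) c Γ ∧
              ((univ.filter (fun i => 2 ≤ (Γ i).card)).card : ℝ) ≤ 2 ^ ((n : ℝ) ^ ε))) →
            (∀ φ ∈ allSub Γ, φ.depth ≤ d) →
            (∀ φ ∈ allSub Γ, (φ.rank : ℝ) ≤ (n : ℝ) ^ ε) →
            (∀ φ ∈ allSub Γ, φ.FanLe ⌊(n : ℝ) ^ ε⌋₊) →
            (2 : ℝ) ^ ((n : ℝ) ^ ε) ≤ ((allSub Γ).card : ℝ) := by
  classical
  refine ⟨F, F_unsat, F_card, ?_⟩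
  intro p hp d
  -- the main estimate, for `q = 2` or `q = 3`
  have main : ∀ q : ℕ, 2 ≤ q → ¬ p ∣ q →
      (∀ n : ℕ, ∃ blk : Fin n → Finset (Fin (NN q (n / 2))),
        IsCount q blk (F n : Set (Finset (Fin n × Bool)))) →
      ∃ ε : ℝ, 0 < ε ∧ ∃ n₀ : ℕ, ∀ n : ℕ, n₀ ≤ n →
        ∀ c B : ℕ, (c : ℝ) ≤ (n : ℝ) ^ ε → (B : ℝ) ≤ (n : ℝ) ^ ε →
          ∀ (T : ℕ) (Γ : Fin T → Finset (Fm p (Fin n))),
            IsRefutation (F n : Set (Finset (Fin n × Bool))) c B Γ →
            (∀ φ ∈ allSub Γ, φ.depth ≤ d) →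
            (∀ φ ∈ allSub Γ, (φ.rank : ℝ) ≤ (n : ℝ) ^ ε) →
            (∀ φ ∈ allSub Γ, φ.FanLe ⌊(n : ℝ) ^ ε⌋₊) →
            (2 : ℝ) ^ ((n : ℝ) ^ ε) ≤ ((allSub Γ).card : ℝ) := by
    intro q hq hpq hblk
    obtain ⟨C, e, hC0, he0, hcore⟩ := core p q hp hq hpq d
    set g : ℕ := 2 * (e * q) with hg
    have hg0 : 0 < g := by
      rw [hg]; exact Nat.mul_pos (by norm_num) (Nat.mul_pos he0 (by omega))
    have hgr : (0 : ℝ) < g := by exact_mod_cast hg0
    set ε : ℝ := 1 / g with hε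
    have hε0 : 0 < ε := by positivity
    set K : ℕ := 3 ^ q * (2 * C) ^ (e * q) with hK
    refine ⟨ε, hε0, ?_⟩
    have ev : ∀ᶠ n : ℕ in atTop, (2 * (K : ℝ) + 1) ≤ (n : ℝ) ^ (1 / 2 : ℝ) :=
      ((tendsto_rpow_atTop (by norm_num : (0 : ℝ) < 1 / 2)).comp
        tendsto_natCast_atTop_atTop).eventually_ge_atTop _
    obtain ⟨n₀, hn₀⟩ := eventually_atTop.mp (ev.and (eventually_ge_atTop 1))
    refine ⟨n₀, ?_⟩
    intro n hn c B hc hB T Γ href hdepth hrank hfan
    obtain ⟨e1, e2⟩ := hn₀ n hn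
    have hn1 : (1 : ℝ) ≤ n := by exact_mod_cast e2
    set Y : ℕ := ⌊(n : ℝ) ^ ε⌋₊ + 1 with hY
    have hnε : (1 : ℝ) ≤ (n : ℝ) ^ ε := Real.one_le_rpow hn1 hε0.le
    have hY1 : (Y : ℝ) ≤ 2 * (n : ℝ) ^ ε := by
      have := Nat.floor_le (by linarith : 0 ≤ (n : ℝ) ^ ε)
      rw [hY]; push_cast; linarith
    have hY2 : (n : ℝ) ^ ε < Y := by
      rw [hY]; push_cast; exact Nat.lt_floor_add_one _
    -- the size
    have hsize : ((C * Y) ^ e + 2) ^ q ≤ n / 2 := by
      have hCY : 1 ≤ (C * Y) ^ e := Nat.one_le_pow _ _ (Nat.mul_pos hC0 (by omega))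
      have h1 : ((C * Y) ^ e + 2) ^ q ≤ 3 ^ q * (C * Y) ^ (e * q) := by
        calc ((C * Y) ^ e + 2) ^ q ≤ (3 * (C * Y) ^ e) ^ q :=
              Nat.pow_le_pow_left (by omega) q
          _ = 3 ^ q * (C * Y) ^ (e * q) := by rw [mul_pow, ← pow_mul]
      have h2 : ((3 ^ q * (C * Y) ^ (e * q) : ℕ) : ℝ) ≤ K * (n : ℝ) ^ (1 / 2 : ℝ) := by
        have h3 : ((C : ℝ) * Y) ^ (e * q) ≤ ((2 * C : ℝ) * (n : ℝ) ^ ε) ^ (e * q) := by
          apply pow_le_pow_left₀ (by positivity)
          have : (0 : ℝ) ≤ C := Nat.cast_nonneg C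
          nlinarith
        have h4 : ((n : ℝ) ^ ε) ^ (e * q) = (n : ℝ) ^ (1 / 2 : ℝ) := by
          rw [← Real.rpow_natCast, ← Real.rpow_mul (by linarith)]
          congr 1
          rw [hε, hg]
          have he' : (e : ℝ) ≠ 0 := by exact_mod_cast he0.ne'
          have hq' : (q : ℝ) ≠ 0 := by
            have : q ≠ 0 := by omega
            exact_mod_cast this
          push_cast
          field_simp
        push_cast
        rw [hK]
        push_cast
        calc (3 : ℝ) ^ q * (C * Y) ^ (e * q) ≤ 3 ^ q * ((2 * C : ℝ) * (n : ℝ) ^ ε) ^ (e * q) :=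
              mul_le_mul_of_nonneg_left h3 (by positivity)
          _ = 3 ^ q * (2 * C) ^ (e * q) * (n : ℝ) ^ (1 / 2 : ℝ) := by
              rw [mul_pow, h4]; ring
      have h5 : (2 * ((3 ^ q * (C * Y) ^ (e * q) : ℕ) : ℝ) + 1) ≤ n := by
        have h6 : (n : ℝ) = (n : ℝ) ^ (1 / 2 : ℝ) * (n : ℝ) ^ (1 / 2 : ℝ) := by
          rw [← Real.rpow_add (by linarith)]; norm_num
        have h7 : (1 : ℝ) ≤ (n : ℝ) ^ (1 / 2 : ℝ) := Real.one_le_rpow hn1 (by norm_num)
        have h8 : (0 : ℝ) ≤ K := Nat.cast_nonneg K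
        nlinarith
      have h9 : 2 * (3 ^ q * (C * Y) ^ (e * q)) + 1 ≤ n := by exact_mod_cast h5
      omega
    have hNN : (C * Y) ^ e ≤ NN q (n / 2) := by
      have h1 := (NN_spec (q := q) (m := n / 2) (by omega)).2
      have h2 : ((C * Y) ^ e + 2) ^ q < (NN q (n / 2) + 2) ^ q := hsize.trans_lt h1
      have h3 := lt_of_pow_lt_pow_left₀ q (Nat.zero_le _) h2
      omega
    obtain ⟨blk, hblk'⟩ := hblk n
    have hcY : c ≤ Y := by
      have := Nat.le_floor hc
      omega
    have hBY : B ≤ Y := by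
      have := Nat.le_floor hB
      omega
    have hmain := hcore (NN q (n / 2)) Y (by omega) hNN (Fin n) blk _ hblk' T Γ
      (href.mono hcY hBY) hdepth
      (fun φ hφ => by
        have := Nat.le_floor (hrank φ hφ)
        omega)
      (fun φ hφ => FanLe_mono (by omega) (hfan φ hφ))
    calc (2 : ℝ) ^ ((n : ℝ) ^ ε) ≤ 2 ^ (Y : ℝ) :=
          Real.rpow_le_rpow_of_exponent_le (by norm_num) hY2.le
      _ = ((2 ^ Y : ℕ) : ℝ) := by
          rw [Real.rpow_natCast]; push_cast; rfl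
      _ ≤ _ := by exact_mod_cast hmain.le
  -- the tree-like case is a special case
  suffices hs : ∃ ε : ℝ, 0 < ε ∧ ∃ n₀ : ℕ, ∀ n : ℕ, n₀ ≤ n →
        ∀ c B : ℕ, (c : ℝ) ≤ (n : ℝ) ^ ε → (B : ℝ) ≤ (n : ℝ) ^ ε →
          ∀ (T : ℕ) (Γ : Fin T → Finset (Fm p (Fin n))),
            IsRefutation (F n : Set (Finset (Fin n × Bool))) c B Γ →
            (∀ φ ∈ allSub Γ, φ.depth ≤ d) →
            (∀ φ ∈ allSub Γ, (φ.rank : ℝ) ≤ (n : ℝ) ^ ε) →
            (∀ φ ∈ allSub Γ, φ.FanLe ⌊(n : ℝ) ^ ε⌋₊) →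
            (2 : ℝ) ^ ((n : ℝ) ^ ε) ≤ ((allSub Γ).card : ℝ) by
    obtain ⟨ε, hε, n₀, h⟩ := hs
    refine ⟨ε, hε, n₀, ?_⟩
    intro n hn c hc T Γ href
    rcases href with ⟨B, hB, href⟩ | ⟨href, hwide⟩
    · exact h n hn c B hc hB T Γ href
    · refine h n hn c _ hc ?_ T Γ href.rank
      have hpos : (0 : ℝ) ≤ (n : ℝ) ^ ε := Real.rpow_nonneg (Nat.cast_nonneg n) ε
      rcases Nat.eq_zero_or_pos (univ.filter (fun i => 2 ≤ (Γ i).card)).card with h0 | h0
      · rw [h0, Nat.log_zero_right]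
        simpa using hpos
      · have h1 : 2 ^ Nat.log 2 (univ.filter (fun i => 2 ≤ (Γ i).card)).card ≤
            (univ.filter (fun i => 2 ≤ (Γ i).card)).card := Nat.pow_log_le_self 2 h0.ne'
        have h2 : (2 : ℝ) ^ ((Nat.log 2 (univ.filter (fun i => 2 ≤ (Γ i).card)).card : ℕ) : ℝ) ≤
            2 ^ ((n : ℝ) ^ ε) := by
          refine le_trans ?_ hwide
          rw [Real.rpow_natCast]
          exact_mod_cast h1
        exact (Real.rpow_le_rpow_left_iff (by norm_num : (1 : ℝ) < 2)).mp h2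
  by_cases hp2 : p = 2
  · refine main 3 (by norm_num) (by rw [hp2]; norm_num) (fun n => ⟨blk3 n, ?_⟩)
    apply cnt_isCount (blk3_surj n)
    intro C hC
    rw [mem_coe] at hC
    unfold F at hC
    rw [mem_image₂] at hC
    obtain ⟨C', _, D, hD, rfl⟩ := hC
    exact ⟨D, hD, subset_union_right⟩
  · refine main 2 (by norm_num) ?_ (fun n => ⟨blk2 n, ?_⟩)
    · intro h
      have h1 := Nat.le_of_dvd (by norm_num) h
      have h2 := hp.two_le
      omega
    · apply cnt_isCount (blk2_surj n)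
      intro C hC
      rw [mem_coe] at hC
      unfold F at hC
      rw [mem_image₂] at hC
      obtain ⟨C', hC', D, _, rfl⟩ := hC
      exact ⟨C', hC', subset_union_left⟩

end Pool.Agent.Results.MP_7a4ff1_lc.SmallModRank
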