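import Pool.Agent.V8H57.WF.Final

/-!
# Refutations with free lines and few chains of long disjunctions of `MOD p` formulas

Exponential lower bounds for constant-depth Frege refutations with `MOD p` connectives of the
counting principle modulo `q` (`p` does not divide `q`), in which

* a few lines, the free lines `S`, are arbitrary formulas (of any depth, with any number of
  `MOD p` subformulas),
* a few chains `𝓑` of disjunctions, the wild disjunctions, have any number of disjuncts with
  `MOD p` connectives; a chain consists of disjunctions with nested sets of disjuncts (for instance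
  of all initial segments of one disjunction),
* and every other formula has only few maximal subformulas that begin with `MOD p` or are wild.

Here few means at most `N ^ ε`. The inferences are local (`LocalInfW`): they may use case
distinctions over the disjuncts of wild disjunctions, with a new set of at most `c` premises in
every case.
-/

set_option autoImplicit false

namespace Pool.Agent.Results.MP_7a4ff1_lc.WildDisjunctions

open Pool.Agent.Helper600R2.Cnt Pool.Agent.V8H57.WF

/-- Let `p` be a prime, `q ≥ 2` not divisible by `p`, and `d`, `c` arbitrary. There is `ε > 0` such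
that for all large `N`: if `L` is a refutation of the counting principle modulo `q` on `N` points by
`c`-local inferences, with at most `N ^ ε` free lines and wild disjunctions forming at most
`N ^ ε` chains, such that all subformulas of the lines that are not free have depth at most `d` and
at most `N ^ ε` maximal subformulas which begin with a `MOD p` connective or are wild, then the lines
that are not free have at least `2 ^ (N ^ ε)` distinct subformulas. -/
theorem result (p q : ℕ) (hp : p.Prime) (hq : 2 ≤ q) (hpq : ¬ p ∣ q) (d c : ℕ) :
    ∃ ε : ℝ, 0 < ε ∧ ∃ N₀ : ℕ, ∀ N : ℕ, N₀ ≤ N →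
      ∀ (T : ℕ) (L : Fin T → Fm p (Var q N)) (S : Finset (Fin T))
        (𝓑 : Finset (Fm p (Var q N))) (F : ℕ), (S.card : ℝ) ≤ (N : ℝ) ^ ε →
        𝓑 ⊆ subOff L S → (F : ℝ) ≤ (N : ℝ) ^ ε → Chains F 𝓑 → IsRefutationW c S 𝓑 L →
        (∀ φ ∈ subOff L S, φ.depth ≤ d) →
        (∀ φ ∈ subOff L S, ((topsB 𝓑 φ).card : ℝ) ≤ (N : ℝ) ^ ε) →
        (2 : ℝ) ^ ((N : ℝ) ^ ε) ≤ ((subOff L S).card : ℝ) :=
  wild_exp p q hp hq hpq d c

end Pool.Agent.Results.MP_7a4ff1_lc.WildDisjunctions
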